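import Pool.Agent.H73.KG.Stmts2

/-! Module MGL of project KG: marginals and fibres. -/

set_option autoImplicit false
set_option linter.unusedSectionVars false

open MeasureTheory Set Filter Topology
open scoped ContDiff

namespace Pool.Agent.H73.KG

open Pool.Agent.H84 Pool.Agent.H84.Sym Pool.Agent.H84.Sym.P2x Pool.Agent.H19.KL

variable (E : Type) [NormedAddCommGroup E] [InnerProductSpace ℝ E]
    [FiniteDimensional ℝ E] [MeasurableSpace E] [BorelSpace E]

namespace MGLx

variable {E}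

theorem gc_li (e : E) : GC (li e) := by
  refine ⟨by unfold li; fun_prop, ‖e‖, 1, fun x => ?_⟩
  have h1 : |li e x| ≤ ‖e‖ * ‖x‖ := abs_real_inner_le_norm e x
  have h2 := Real.add_one_le_exp ‖x‖
  refine h1.trans (mul_le_mul_of_nonneg_left ?_ (norm_nonneg e))
  rw [one_mul]
  linarith

/-- continuity of conditional means -/
theorem cav_cont' (S : Submodule ℝ E) {U : E → ℝ} {t C : ℝ} (hU : Pot U t C) {F : E → ℝ}
    (hF : GC F) : Continuous (cav S U F) := by
  unfold cav
  exact (cont_pint S hU hF.1 hF.2).div (cont_pint S hU continuous_const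
    (Gr.of_bdd fun _ => le_rfl)) fun z => (P4bx.rho_pos S hU z).ne'

/-- functions of the second variable -/
theorem cav_of_snd (S : Submodule ℝ E) {U : E → ℝ} {t C : ℝ} (hU : Pot U t C) {F : E → ℝ}
    {g : Sᗮ → ℝ} (h : ∀ (x : S) (z : Sᗮ), F ((x : E) + (z : E)) = g z) (z : Sᗮ) :
    cav S U F z = g z := by
  unfold cav pint
  simp only [h]
  rw [integral_const_mul]
  have h1 := (P4bx.rho_pos S hU z).ne'
  unfold pint at h1
  simp only [one_mul] at h1 ⊢
  field_simp

theorem int_of_snd (S : Submodule ℝ E) {U : E → ℝ} {t C : ℝ} (hU : Pot U t C)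
    (hW : Continuous (mg S U)) {F : E → ℝ} (hF : GC F)
    {g : Sᗮ → ℝ} (h : ∀ (x : S) (z : Sᗮ), F ((x : E) + (z : E)) = g z) :
    ∫ z, g z ∂(mu (mg S U)) = ∫ x, F x ∂(mu U) := by
  rw [(P6.int_mu_eq S hU hW hF.1 hF.2).1]
  refine integral_congr_ae (Eventually.of_forall fun z => ?_)
  exact (cav_of_snd S hU h z).symm

theorem li_snd (S : Submodule ℝ E) (u : Sᗮ) (x : S) (z : Sᗮ) :
    li (u : E) ((x : E) + (z : E)) = li u z := by
  unfold li
  rw [inner_add_right]
  have h1 : inner ℝ (u : E) (x : E) = 0 := Submodule.inner_left_of_mem_orthogonal x.2 u.2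
  rw [h1, zero_add]
  rfl

end MGLx

open MGLx

theorem mgl_thm : MGLStmt E := by
  intro U t hBP S
  obtain ⟨⟨⟨C, hU⟩, hprob⟩, hup⟩ := hBP
  have htp := hU.pos
  have hsymm : ∀ x u v, fderiv ℝ (fderiv ℝ U) x u v = fderiv ℝ (fderiv ℝ U) x v u := fun x u v =>
    (hU.smooth.contDiffAt.isSymmSndFDerivAt (x := x) (by simp)).eq u v
  have hU2 : ∀ x, ‖fderiv ℝ (fderiv ℝ U) x‖ ≤ 1 := fun x =>
    P4bx.bilin_bound _ (hsymm x) (fun v => le_trans (by positivity) (hU.hess x v))
      (fun v => by rw [one_mul]; exact hup x v) zero_le_one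
  have hτU : ∀ x v : E, t * ‖Sᗮ.orthogonalProjectionOnto v‖ ^ 2 ≤
      fderiv ℝ (fderiv ℝ U) x v v := by
    intro x v
    refine le_trans (mul_le_mul_of_nonneg_left ?_ htp.le) (hU.hess x v)
    have h1 : ‖Sᗮ.orthogonalProjectionOnto v‖ ≤ ‖v‖ := Submodule.norm_orthogonalProjectionOnto_apply_le _ _
    gcongr
  obtain ⟨⟨C', hW⟩, hDW, hDDW⟩ := mg_spec S hU hU2 htp hτU
  have hWc : Continuous (mg S U) := hW.smooth.continuous
  have hqc : ∀ e : E, GC (fun x => fderiv ℝ (fderiv ℝ U) x e e) := by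
    intro e
    constructor
    · have h1 : Continuous (fderiv ℝ (fderiv ℝ U)) :=
        (hU.smooth.fderiv_right (m := 1) (by norm_num)).continuous_fderiv (by norm_num)
      exact (h1.clm_apply continuous_const).clm_apply continuous_const
    · refine Gr.of_bdd (A := ‖e‖ ^ 2) fun x => ?_
      rw [abs_of_nonneg (le_trans (by positivity) (hU.hess x e))]
      exact hup x e
  have hfin := isFinite_mu hW
  have hprobW : IsProbabilityMeasure (mu (mg S U)) := by
    rw [isProbabilityMeasure_iff_real]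
    have h1 := int_of_snd S hU hWc (GC.const (1:ℝ)) (g := fun _ => 1) (fun _ _ => rfl)
    simpa using h1
  have hmn : ∀ u : Sᗮ, mn (mg S U) u = mn U u := fun u =>
    int_of_snd S hU hWc (gc_li (u : E)) (fun x z => li_snd S u x z)
  have hcv : ∀ u v : Sᗮ, cv (mg S U) (li u) (li v) = cv U (li (u : E)) (li (v : E)) := by
    intro u v
    have h1 := int_of_snd S hU hWc ((gc_li (u : E)).mul (gc_li (v : E)))
      (g := fun z => li u z * li v z) (fun x z => by rw [li_snd, li_snd])
    have h2 := hmn u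
    have h3 := hmn v
    unfold mn at h2 h3
    unfold cv
    rw [h1, h2, h3]
  refine ⟨⟨⟨⟨C', hW⟩, hprobW⟩, ?_⟩, ?_, ?_, ?_, ?_, ?_⟩
  · intro z ν
    rw [hDDW]
    have := P4bx.prob_nsec S hU z
    have h1 : cav S U (fun x => fderiv ℝ (fderiv ℝ U) x ν ν) z ≤ ‖ν‖ ^ 2 := by
      rw [← P4bx.int_nsec S hU]
      have hi : Integrable (fun x : S => fderiv ℝ (fderiv ℝ U) ((x : E) + (z : E)) ν ν)
          (mu (P4bx.nsec S U z)) :=
        (P4bx.gc_sec S (hqc (ν : E)) (z : E)).integrable (P4bx.pot_nsec S hU z)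
      have h2 := integral_mono hi (integrable_const (‖ν‖ ^ 2)) (fun x => by
        have h3 := hup ((x : E) + (z : E)) (ν : E)
        rw [← Submodule.coe_norm] at h3
        exact h3)
      simpa using h2
    have h2 : 0 ≤ cav S U (fun x => (D (ν : E) U x) ^ 2) z - (cav S U (D (ν : E) U) z) ^ 2 := by
      rw [← P4bx.int_nsec S hU, ← P4bx.int_nsec S hU]
      have hgk := P4bx.gc_sec S (P4bx.gc_D hU (ν : E)) (z : E)
      have i1 := hgk.integrable (P4bx.pot_nsec S hU z)
      have i2 := hgk.sq.integrable (P4bx.pot_nsec S hU z)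
      exact P4bx.var_nonneg i1 i2
    linarith
  · intro z
    exact ⟨⟨_, P4bx.pot_nsec S hU z⟩, P4bx.prob_nsec S hU z⟩
  · intro z F
    exact P4bx.int_nsec S hU F z
  · intro F hF
    obtain ⟨h1, h2⟩ := P6.int_mu_eq S hU hWc hF.1 hF.2
    exact ⟨h1, h2, cav_cont' S hU hF⟩
  · intro u v w
    refine ⟨?_, hcv u v, hmn u⟩
    unfold t3
    rw [hmn u, hmn v, hmn w]
    exact int_of_snd S hU hWc
      ((((gc_li (u : E)).sub (GC.const _)).mul ((gc_li (v : E)).sub (GC.const _))).mul
        ((gc_li (w : E)).sub (GC.const _)))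
      (fun x z => by rw [li_snd, li_snd, li_snd])
  · intro c hc w
    rw [hcv w w]
    have h1 := hc (w : E)
    rw [Submodule.coe_norm]
    exact h1

end Pool.Agent.H73.KG
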